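import Pool.Agent.P8H16.GL10

/-!
Assume the Riemann hypothesis.  Dyson and Montgomery predict that the normalised gaps of the zeta
zeros follow the law of the Gaussian unitary ensemble.  We show that their law lies strictly between
the Wigner laws of the orthogonal and of the symplectic ensemble: it is not the law of the
orthogonal ensemble and not the Poisson law, and not only at the origin, since the distribution
function of the gaps falls below that of the orthogonal law by `1/50` (and below the Poisson law by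
`1/6`) somewhere in `[0, 3/2]`, for every large `N`; and it is not the law of the symplectic
ensemble, since it exceeds `103/100` times its distribution function by a positive constant
somewhere in `[0, 101/100]`, for every large `N`.

Idea of the proof.  Let `g ≥ 0` be the cosine transform of a smooth even function supported in
`(-1, 1)`.  By positivity the sum of `g` over the consecutive pairs of zeros is at most the sum over
all pairs, which Montgomery's theorem evaluates: the gaps are dominated by the pair correlation of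
the unitary ensemble.  For `g(x) = (cos (π x) / (1 - 4 x²))²` this is violated by the orthogonal law.
In the other direction let `g(x) = (1 - x²) (cos (π x) / (1 - 4 x²))²`, which is negative beyond `1`:
the pairs of zeros at distance at most the mean spacing are clusters, two zeros that are `k` apart
have between them one of `k` gaps of the `k`-th part of their distance, and with the symplectic law
there would be too few of them for Montgomery's theorem.
-/

open Filter MeasureTheory

namespace Pool.Agent.Results.MP_21f43f_nt.BetweenGOEAndGSE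

/-- multiplicity of `s` as a zero of the Riemann zeta function (order of vanishing at `s`) -/
noncomputable def zmult (s : ℂ) : ℕ := analyticOrderNatAt riemannZeta s

/-- the number of nontrivial zeros of `ζ` with ordinate in `(0, t]`, with multiplicity -/
noncomputable def NZ (t : ℝ) : ℕ :=
  ∑ᶠ s ∈ {s : ℂ | riemannZeta s = 0 ∧ 0 < s.re ∧ s.re < 1 ∧ 0 < s.im ∧ s.im ≤ t}, zmult s

/-- for `n ≥ 1`: the `n`-th positive ordinate `γ n` of a nontrivial zero of `ζ`, the ordinates being
listed in nondecreasing order and repeated according to multiplicity -/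
noncomputable def γ (n : ℕ) : ℝ := sInf {t : ℝ | n ≤ NZ t}

/-- the normalised gaps `δ_n = (γ_{n+1} log γ_{n+1} - γ_n log γ_n) / 2π` -/
noncomputable def δ (n : ℕ) : ℝ :=
  (γ (n + 1) * Real.log (γ (n + 1)) - γ n * Real.log (γ n)) / (2 * Real.pi)

/-- the proportion of the `n ≤ N` with `δ_n ≤ s` -/
noncomputable def prop (N : ℕ) (s : ℝ) : ℝ :=
  ({n : ℕ | 1 ≤ n ∧ n ≤ N ∧ δ n ≤ s}.ncard : ℝ) / N

/-- the distribution function of the Wigner law of the orthogonal ensemble, with density
`(π / 2) s exp (-π s² / 4)` -/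
noncomputable def orthogonal (s : ℝ) : ℝ := 1 - Real.exp (-(Real.pi * s ^ 2 / 4))

/-- the distribution function of the Wigner law of the symplectic ensemble, with density
`2^18 / (3^6 π^3) s^4 exp (-64 s² / (9 π))` -/
noncomputable def symplectic (s : ℝ) : ℝ := ∫ t in (0 : ℝ)..s,
  2 ^ 18 / (3 ^ 6 * Real.pi ^ 3) * t ^ 4 * Real.exp (-(64 * t ^ 2 / (9 * Real.pi)))

/-- the cosine transform -/
noncomputable def ct (ψ : ℝ → ℝ) (u : ℝ) : ℝ := ∫ α : ℝ, ψ α * Real.cos (2 * Real.pi * α * u)

lemma dj_eq (n : ℕ) : δ n = Pool.Agent.Y749.AH.dj n := by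
  unfold δ Pool.Agent.Y749.AH.dj Pool.Agent.Y749.AH.gt
  rw [sub_div]
  rfl

lemma prop_eq {N : ℕ} (hN : 1 ≤ N) (s : ℝ) : prop N s * N = Pool.Agent.P8H16.GL.cnt N s := by
  have h0 : (N : ℝ) ≠ 0 := by
    have : (0 : ℝ) < N := by exact_mod_cast hN
    exact this.ne'
  have hd : ∀ n, δ n = Pool.Agent.Y749.AH.dj n := dj_eq
  unfold prop Pool.Agent.P8H16.GL.cnt
  rw [div_mul_cancel₀ _ h0]
  have e : {n : ℕ | 1 ≤ n ∧ n ≤ N ∧ δ n ≤ s} =
      (((Finset.Ioc 0 N).filter (fun j => Pool.Agent.Y749.AH.dj j ≤ s) : Finset ℕ) : Set ℕ) := by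
    ext n
    simp only [Set.mem_ofPred_eq, Finset.coe_filter, Finset.mem_Ioc]
    rw [hd]
    constructor
    · rintro ⟨h1, h2, h3⟩
      exact ⟨⟨h1, h2⟩, h3⟩
    · rintro ⟨⟨h1, h2⟩, h3⟩
      exact ⟨h1, h2, h3⟩
  rw [e, Set.ncard_coe_finset]

/-- On the Riemann hypothesis: (1) for every even `C²` function `ψ` supported in `[-κ, κ]`, `κ < 1`,
with nonnegative cosine transform `g`, the upper limit of the mean of `g (δ_n)` over `n ≤ N` is at
most `(1/2) ∫ g(u) (1 - (sin (π u) / (π u))²) du`; (2) for all large `N` there is `s ∈ [0, 3/2]` such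
that the proportion of the `n ≤ N` with `δ_n ≤ s` is at most the value at `s` of the orthogonal
Wigner distribution function minus `1/50`; (3) the same with the exponential distribution function
`1 - exp (-s)` minus `1/6`; (4) there is `c > 0` such that for all large `N` there is
`s ∈ [0, 101/100]` such that the proportion is at least `103/100` times the value at `s` of the
symplectic Wigner distribution function plus `c`. -/
theorem result (RH : RiemannHypothesis) :
    (∀ (ψ : ℝ → ℝ) (κ : ℝ), κ < 1 → ContDiff ℝ 2 ψ → (∀ x, ψ (-x) = ψ x) →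
      (∀ x, κ ≤ |x| → ψ x = 0) → (∀ u, 0 ≤ ct ψ u) → ∀ ε : ℝ, 0 < ε → ∀ᶠ N : ℕ in atTop,
        (∑ n ∈ Finset.Icc 1 N, ct ψ (δ n)) / N ≤
          1 / 2 * (∫ u : ℝ, ct ψ u * (1 - (Real.sin (Real.pi * u) / (Real.pi * u)) ^ 2)) + ε) ∧
    (∀ᶠ N : ℕ in atTop, ∃ s ∈ Set.Icc (0 : ℝ) (3 / 2), prop N s ≤ orthogonal s - 1 / 50) ∧
    (∀ᶠ N : ℕ in atTop, ∃ s ∈ Set.Icc (0 : ℝ) (3 / 2), prop N s ≤ 1 - Real.exp (-s) - 1 / 6) ∧
    (∃ c : ℝ, 0 < c ∧ ∀ᶠ N : ℕ in atTop, ∃ s ∈ Set.Icc (0 : ℝ) (101 / 100),
      103 / 100 * symplectic s + c ≤ prop N s) := by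
  have hd : ∀ n, δ n = Pool.Agent.Y749.AH.dj n := dj_eq
  have hpos : ∀ N : ℕ, 1 ≤ N → (0 : ℝ) < N := fun N hN => by exact_mod_cast hN
  refine ⟨fun ψ κ hκ h2 he hs hg ε hε => ?_, ?_, ?_, ?_⟩
  · filter_upwards [Pool.Agent.P8H16.GL.dominated RH h2 he hκ hs hg hε, eventually_ge_atTop 1]
      with N h1 hN
    rw [div_le_iff₀ (hpos N hN)]
    have e : Finset.Icc 1 N = Finset.Ioc 0 N := by
      ext n
      rw [Finset.mem_Icc, Finset.mem_Ioc]
      omega
    rw [e]
    simp_rw [hd]
    exact h1
  · filter_upwards [Pool.Agent.P8H16.GL.law_low RH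
      (R := fun s => 1 - Real.exp (-(Real.pi * s ^ 2 / 4)) - 1 / 50) (by fun_prop)
      (le_trans (by norm_num) Pool.Agent.P8H16.GL.goe_num), eventually_ge_atTop 1] with N h1 hN
    obtain ⟨s, hs, h⟩ := h1
    refine ⟨s, hs, ?_⟩
    rw [← prop_eq hN] at h
    exact le_of_mul_le_mul_right h (hpos N hN)
  · filter_upwards [Pool.Agent.P8H16.GL.law_low RH
      (R := fun s => 1 - Real.exp (-s) - 1 / 6) (by fun_prop)
      (le_trans (by norm_num) Pool.Agent.P8H16.GL.poi_num), eventually_ge_atTop 1] with N h1 hN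
    obtain ⟨s, hs, h⟩ := h1
    refine ⟨s, hs, ?_⟩
    rw [← prop_eq hN] at h
    exact le_of_mul_le_mul_right h (hpos N hN)
  · obtain ⟨c, hc, h0⟩ := Pool.Agent.P8H16.GL.law_high RH
    refine ⟨c, hc, ?_⟩
    filter_upwards [h0, eventually_ge_atTop 1] with N h1 hN
    obtain ⟨s, hs, h⟩ := h1
    refine ⟨s, hs, ?_⟩
    rw [← prop_eq hN] at h
    exact le_of_mul_le_mul_right h (hpos N hN)

end Pool.Agent.Results.MP_21f43f_nt.BetweenGOEAndGSE
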