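import Pool.Agent.P8H8.HF.Fin3
import Pool.Agent.P8H8.PC.Zero
import Pool.Agent.P8H8.PC.Gaud
import Pool.Agent.P8H24.PC.Herg
import Pool.Agent.P8H24.PC.Trans
import Pool.Agent.P8H57.PC.MovB
import Pool.Agent.P8H72.PC.Clus

set_option autoImplicit false

/-!
# MP_21f43f_nt: the Gaudin law along the de Bruijn-Newman flow

`H t z` is the integral of `exp (t * u ^ 2) * Phi u * cos (z * u)` over `u > 0`, so that `H 0 z` is
`ξ(1/2 + i z / 2) / 8`: the zeros of `H 0` are the numbers `z` for which `1/2 + i z / 2` is a nontrivial zero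
of zeta, and `z / 2` is its ordinate.  The mean spacing of the ordinates is `2π / log T`.

On the Riemann hypothesis, as in the problem:

* For every function `t` with values in `[0, 1/2)`: the Gaudin law holds for the gaps between the consecutive
  positive zeros of `H (t T)` up to the height `T` if and only if Q1 is true and `t(T) log² T → 0`.
* The same is true of every law with a continuous distribution function `F` and mean `1` such that `F x ≥ x ^ A` for
  some `A` and arbitrarily small `x > 0`.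
* The reason: at the times `t` with `c / log² T ≤ t ≤ B / log² T` the proportion of the gaps at most `ε` times the mean
  is at most `K ε ^ A` for every `A`, with `K = K(A, c)`.
* For all laws with a continuous distribution function and mean `1`: if the law holds for `H (t₁ T)`, then it holds for
  `H (t₂ T)` if and only if `(t₁ - t₂) log² T → 0`.

The packages CLUS, MOV and (PF, HERG, TRANS) of the proof are by helper72, helper57 and helper24.
-/

open Filter Topology

namespace Pool.Agent.Results.MP_21f43f_nt.HeatFlowGaudinExact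

/-- multiplicity of `s` as a zero of the Riemann zeta function (order of vanishing at `s`) -/
noncomputable def zmult (s : ℂ) : ℕ := analyticOrderNatAt riemannZeta s

/-- the number of nontrivial zeros of `ζ` with ordinate in `(0, t]`, with multiplicity -/
noncomputable def NZ (t : ℝ) : ℕ :=
  ∑ᶠ s ∈ {s : ℂ | riemannZeta s = 0 ∧ 0 < s.re ∧ s.re < 1 ∧ 0 < s.im ∧ s.im ≤ t}, zmult s

/-- for `n ≥ 1`: `γ_n`, the `n`-th positive ordinate of a nontrivial zero of `ζ`, the ordinates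
being listed in nondecreasing order and repeated according to multiplicity -/
noncomputable def ord (n : ℕ) : ℝ := sInf {t : ℝ | n ≤ NZ t}

/-- the normalised ordinate `(1 / 2π) γ_n log γ_n` -/
noncomputable def nord (n : ℕ) : ℝ := 1 / (2 * Real.pi) * ord n * Real.log (ord n)

/-- the normalised gap `δ_n` between the `n`-th and the `(n+1)`-st zero -/
noncomputable def gap (n : ℕ) : ℝ := nord (n + 1) - nord n

/-- the sine kernel -/
noncomputable def sineKernel (x y : ℝ) : ℝ :=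
  if x = y then 1 else Real.sin (Real.pi * (x - y)) / (Real.pi * (x - y))

/-- the Fredholm determinant of `I - K_s` on `L²(0, s)`, given by its Fredholm series -/
noncomputable def gaudinDet (s : ℝ) : ℝ := ∑' k : ℕ, (-1) ^ k / (k.factorial : ℝ) *
  ∫ x in Set.Icc (0 : Fin k → ℝ) (fun _ => s), Matrix.det (Matrix.of fun i j : Fin k => sineKernel (x i) (x j))

/-- the Gaudin density -/
noncomputable def p (s : ℝ) : ℝ := deriv (deriv gaudinDet) s

/-- Q1 of the problem. -/
def Q1 : Prop := ∀ a b : ℝ, 0 ≤ a → a < b →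
  Tendsto (fun N : ℕ => ({n : ℕ | 1 ≤ n ∧ n ≤ N ∧ a < gap n ∧ gap n ≤ b}.ncard : ℝ) / N) atTop
    (𝓝 (∫ s in a..b, p s))

/-- The de Bruijn-Newman kernel. -/
noncomputable def Phi (u : ℝ) : ℝ := ∑' n : ℕ,
  (2 * Real.pi ^ 2 * ((n : ℝ) + 1) ^ 4 * Real.exp (9 * u) -
    3 * Real.pi * ((n : ℝ) + 1) ^ 2 * Real.exp (5 * u)) *
    Real.exp (-(Real.pi * ((n : ℝ) + 1) ^ 2 * Real.exp (4 * u)))

/-- The de Bruijn-Newman family: the integral of `exp (t u²) Φ(u) cos (z u)` over `u > 0`. -/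
noncomputable def H (t : ℝ) (z : ℂ) : ℂ :=
  ∫ u in Set.Ioi (0 : ℝ), ((Real.exp (t * u ^ 2) * Phi u : ℝ) : ℂ) * Complex.cos (z * u)

/-- The pairs of consecutive positive zeros of `H t`, the first one at height at most `T`. -/
def pairs (t T : ℝ) : Set (ℝ × ℝ) := {p | 0 < p.1 ∧ p.1 < p.2 ∧ H t (p.1 : ℂ) = 0 ∧ H t (p.2 : ℂ) = 0 ∧
  (∀ y : ℝ, p.1 < y → y < p.2 → H t (y : ℂ) ≠ 0) ∧ p.1 / 2 ≤ T}

/-- The normalised gap of such a pair. -/
noncomputable def ngap (T : ℝ) (p : ℝ × ℝ) : ℝ := (p.2 - p.1) / 2 * (Real.log T / (2 * Real.pi))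

/-- The proportion of the normalised gaps of `H t` up to height `T` that are in `(a, b]`. -/
noncomputable def prop (t T a b : ℝ) : ℝ :=
  ({p : ℝ × ℝ | p ∈ pairs t T ∧ a < ngap T p ∧ ngap T p ≤ b}.ncard : ℝ) / (T * Real.log T / (2 * Real.pi))

/-- The Gaudin law for the functions `H (t T)`. -/
def GaudinAt (t : ℝ → ℝ) : Prop := ∀ a b : ℝ, 0 ≤ a → a < b →
  Tendsto (fun T : ℝ => prop (t T) T a b) atTop (𝓝 (∫ s in a..b, p s))

/-- The law with distribution function `F` for the functions `H (t T)`. -/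
def LawAt (F : ℝ → ℝ) (t : ℝ → ℝ) : Prop := ∀ a b : ℝ, 0 ≤ a → a < b →
  Tendsto (fun T : ℝ => prop (t T) T a b) atTop (𝓝 (F b - F a))

/-- The law with distribution function `F` for the gaps `δ_n`. -/
def ZetaLaw (F : ℝ → ℝ) : Prop := ∀ a b : ℝ, 0 ≤ a → a < b →
  Tendsto (fun N : ℕ => ({n : ℕ | 1 ≤ n ∧ n ≤ N ∧ a < gap n ∧ gap n ≤ b}.ncard : ℝ) / N) atTop
    (𝓝 (F b - F a))

/-- The range of the times. -/
def Times (t : ℝ → ℝ) : Prop := ∀ T, 0 ≤ t T ∧ t T < 1 / 2

section Proof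

open Pool.Agent.P8H8.HF

lemma kernel_eq (x y : ℝ) : sineKernel x y = Real.sinc (Real.pi * (x - y)) := by
  unfold sineKernel Real.sinc
  by_cases h : x = y
  · rw [if_pos h, if_pos]
    rw [h]
    ring
  · rw [if_neg h, if_neg]
    intro h1
    rcases mul_eq_zero.1 h1 with h2 | h2
    · exact Real.pi_ne_zero h2
    · exact h (by linarith)

lemma gaudinDet_eq : gaudinDet = fred := by
  funext s
  unfold gaudinDet fred fint sdet
  simp only [kernel_eq]

lemma set_eq (N : ℕ) (a b : ℝ) : {n : ℕ | 1 ≤ n ∧ n ≤ N ∧ a < gap n ∧ gap n ≤ b}.ncard = cnt dl N a b := by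
  classical
  have hg : ∀ k, gap (k + 1) = dl k := fun k => rfl
  unfold cnt
  rw [← Set.ncard_coe_finset]
  symm
  apply Set.ncard_congr (fun k _ => k + 1)
  · intro k hk
    rw [Finset.mem_coe, Finset.mem_filter, Finset.mem_range] at hk
    refine ⟨by omega, by omega, ?_, ?_⟩
    · rw [hg]; exact hk.2.1
    · rw [hg]; exact hk.2.2
  · intro k k' _ _ h
    omega
  · rintro n ⟨h1, h2, h3, h4⟩
    obtain ⟨k, rfl⟩ : ∃ k, n = k + 1 := ⟨n - 1, by omega⟩
    rw [hg] at h3 h4
    refine ⟨k, ?_, rfl⟩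
    rw [Finset.mem_coe, Finset.mem_filter, Finset.mem_range]
    exact ⟨by omega, h3, h4⟩

lemma prop_eq (RH : RiemannHypothesis) {t T a b : ℝ} (ht : 0 ≤ t) (ht2 : t < 1 / 2) (hT : 1 < T) (ha : 0 ≤ a) :
    prop t T a b = (cnt (gg T (t / 4)) (KK (t / 4) T) a b : ℝ) / MT T := by
  have h1 := pairs_ncard RH ht ht2 hT ha (b := b)
  unfold prop MT
  rw [← h1]
  congr 3
  ext q
  constructor
  · rintro ⟨⟨h1, h2, h3, h4, h5, h6⟩, h7, h8⟩
    exact ⟨h1, h2, h3, h4, h5, h6, h7, h8⟩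
  · rintro ⟨h1, h2, h3, h4, h5, h6, h7, h8⟩
    exact ⟨⟨h1, h2, h3, h4, h5, h6⟩, h7, h8⟩

lemma law_ga (RH : RiemannHypothesis) {D1 : ℝ → ℝ} {t : ℝ → ℝ} (ht : Times t) :
    (∀ a b : ℝ, 0 ≤ a → a < b → Tendsto (fun T : ℝ => prop (t T) T a b) atTop (𝓝 (D1 b - D1 a))) ↔
      GA D1 (fun T => t T / 4) := by
  refine forall_congr' fun a => forall_congr' fun b => forall_congr' fun ha => forall_congr' fun _ => ?_
  apply tendsto_congr'
  filter_upwards [eventually_gt_atTop 1] with T hT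
  exact prop_eq RH (ht T).1 (ht T).2 hT ha

lemma quarter {f : ℝ → ℝ} : Tendsto (fun T => f T / 4) atTop (𝓝 0) ↔ Tendsto f atTop (𝓝 0) := by
  constructor
  · intro h
    have := h.const_mul 4
    rw [mul_zero] at this
    refine this.congr fun T => ?_
    ring
  · intro h
    have := h.div_const 4
    rwa [zero_div] at this

lemma threshold (RH : RiemannHypothesis) {D0 D1 : ℝ → ℝ} (hD : GD D0 D1) {t₁ t₂ : ℝ → ℝ} (h1 : Times t₁)
    (h2 : Times t₂) (hG : GA D1 (fun T => t₁ T / 4)) :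
    GA D1 (fun T => t₂ T / 4) ↔ Tendsto (fun T => (t₁ T - t₂ T) * Real.log T ^ 2) atTop (𝓝 0) := by
  rw [ga_threshold RH hD (fun T => by have := (h1 T).1; positivity) (fun T => by have := (h1 T).2; linarith)
    (fun T => by have := (h2 T).1; positivity) (fun T => by have := (h2 T).2; linarith) hG,
    ← quarter (f := fun T => (t₁ T - t₂ T) * Real.log T ^ 2)]
  apply tendsto_congr
  intro T
  ring

lemma zero_times : Times (fun _ => 0) := fun _ => ⟨le_rfl, by norm_num⟩

lemma mov : Pool.Agent.P8H8.PC.S_MOV := fun y R hF τ σ x a K k h0 h1 hR ha hK1 hx hKK hK =>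
  Pool.Agent.P8H57.PC.mov_aux y R hF τ σ x a K k h0 h1 hR ha hK1 hx hKK hK

open Pool.Agent.P8H24.PC Pool.Agent.P8H72.PC in
lemma only_zero (RH : RiemannHypothesis) {D0 D1 : ℝ → ℝ} (hD : GD D0 D1) {A : ℕ}
    (hlow : ∃ᶠ x : ℝ in 𝓝[>] 0, x ^ A ≤ |1 + D1 x|) {t : ℝ → ℝ} (ht : Times t)
    (hGA : GA D1 (fun T => t T / 4)) : Tendsto (fun T => t T * Real.log T ^ 2) atTop (𝓝 0) := by
  have h := Pool.Agent.P8H8.PC.ga_zero pf herg (trans herg) mov clus RH hD hlow
    (fun T => by have := (ht T).1; positivity) (fun T => by have := (ht T).2; linarith) hGA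
  rw [← quarter]
  refine h.congr fun T => ?_
  ring

open Pool.Agent.P8H24.PC Pool.Agent.P8H72.PC in
lemma rare (RH : RiemannHypothesis) (A : ℕ) {c : ℝ} (hc : 0 < c) : ∃ K : ℝ, ∀ B ε : ℝ, 0 < ε →
    ∀ᶠ T in atTop, ∀ t : ℝ, c ≤ t * Real.log T ^ 2 → t * Real.log T ^ 2 ≤ B → prop t T 0 ε ≤ K * ε ^ A := by
  obtain ⟨K, hK, h⟩ := Pool.Agent.P8H8.PC.rare1 pf herg (trans herg) mov clus RH A (c / 4) (by positivity)
  refine ⟨K, fun B ε hε => ?_⟩
  have hl : ∀ᶠ T : ℝ in atTop, 4 * |B| + 4 ≤ Real.log T := Real.tendsto_log_atTop.eventually_ge_atTop _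
  filter_upwards [h (B / 4) ε hε, hl, eventually_gt_atTop 1, MT_tendsto.eventually_gt_atTop 0] with T h1 h2 h3 h4
  intro t h5 h6
  have hB0 := abs_nonneg B
  have hB1 := le_abs_self B
  have hL : 0 < Real.log T := by linarith
  have ht0 : 0 < t := by
    by_contra hn
    have : t * Real.log T ^ 2 ≤ 0 := mul_nonpos_of_nonpos_of_nonneg (not_lt.1 hn) (by positivity)
    linarith
  have ht2 : t < 1 / 2 := by
    by_contra hn
    push Not at hn
    have h7 : 1 / 2 * Real.log T ^ 2 ≤ t * Real.log T ^ 2 := mul_le_mul_of_nonneg_right hn (by positivity)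
    nlinarith
  rw [prop_eq RH ht0.le ht2 h3 le_rfl, div_le_iff₀ h4]
  refine h1 (t / 4) (by positivity) (by linarith) (by linarith) _ fun n hn => ?_
  rw [Finset.mem_filter, Finset.mem_range] at hn
  exact ⟨(KK_spec RH (show 0 ≤ t / 4 by positivity) (by linarith) T n).2 hn.1, hn.2.2⟩

end Proof

/-- The theorem. -/
theorem result (RH : RiemannHypothesis) :
    (∀ t : ℝ → ℝ, Times t → (GaudinAt t ↔ Q1 ∧ Tendsto (fun T => t T * Real.log T ^ 2) atTop (𝓝 0))) ∧
    (∀ F : ℝ → ℝ, Continuous F → F 0 = 0 → Tendsto (fun x => ∫ s in (0 : ℝ)..x, (1 - F s)) atTop (𝓝 1) →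
      (∃ A : ℕ, ∃ᶠ x : ℝ in 𝓝[>] 0, x ^ A ≤ F x) →
      ∀ t : ℝ → ℝ, Times t → (LawAt F t ↔ ZetaLaw F ∧ Tendsto (fun T => t T * Real.log T ^ 2) atTop (𝓝 0))) ∧
    (∀ (A : ℕ) (c : ℝ), 0 < c → ∃ K : ℝ, ∀ B ε : ℝ, 0 < ε → ∀ᶠ T in atTop,
      ∀ t : ℝ, c ≤ t * Real.log T ^ 2 → t * Real.log T ^ 2 ≤ B → prop t T 0 ε ≤ K * ε ^ A) ∧
    (∀ F : ℝ → ℝ, Continuous F → F 0 = 0 → Tendsto (fun x => ∫ s in (0 : ℝ)..x, (1 - F s)) atTop (𝓝 1) →
      (ZetaLaw F ↔ LawAt F (fun _ => 0)) ∧
      ∀ t₁ t₂ : ℝ → ℝ, Times t₁ → Times t₂ → LawAt F t₁ →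
        (LawAt F t₂ ↔ Tendsto (fun T => (t₁ T - t₂ T) * Real.log T ^ 2) atTop (𝓝 0))) := by
  open Pool.Agent.P8H8.HF in
  -- the Gaudin law is in the class
  obtain ⟨D0, D1, D2, g1, g2, g3, g4, g5, g6⟩ := gaudin_reg
  have hG : GD D0 D1 := by
    have hc : Continuous D1 := by
      rw [continuous_iff_continuousAt]
      exact fun x => (g2 x).continuousAt
    refine ⟨g1, hc, g5, g6, fun s hs => ?_, ?_⟩
    · have h := fred_bd hs
      rw [g4 s hs]
      refine ⟨h.1, h.2.trans ?_⟩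
      rw [Real.exp_le_one_iff]
      linarith
    · refine squeeze_zero' (g := fun s => Real.exp (-s)) ?_ ?_ (Real.tendsto_exp_neg_atTop_nhds_zero)
      · filter_upwards [eventually_gt_atTop 0] with s hs
        rw [g4 s hs]
        exact (fred_bd hs).1
      · filter_upwards [eventually_gt_atTop 0] with s hs
        rw [g4 s hs]
        exact (fred_bd hs).2
  have hp : ∀ a b : ℝ, 0 ≤ a → a < b → ∫ s in a..b, p s = D1 b - D1 a := by
    intro a b ha hab
    unfold p
    rw [gaudinDet_eq]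
    exact dens_int g1 g2 g3 g4 ha hab.le
  have hGA : ∀ t : ℝ → ℝ, Times t → (GaudinAt t ↔ GA D1 (fun T => t T / 4)) := by
    intro t ht
    rw [← law_ga RH ht]
    refine forall_congr' fun a => forall_congr' fun b => forall_congr' fun ha => forall_congr' fun hab => ?_
    rw [hp a b ha hab]
  have hQ : Q1 ↔ GA D1 (fun _ => 0) := by
    rw [← q1_ga RH hG]
    refine forall_congr' fun a => forall_congr' fun b => forall_congr' fun ha => forall_congr' fun hab => ?_
    rw [hp a b ha hab]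
    simp only [set_eq]
  have h0 : Q1 ↔ GaudinAt (fun _ => 0) := by
    rw [hQ, hGA _ zero_times]
    simp only [zero_div]
  have hthr : ∀ t₁ t₂ : ℝ → ℝ, Times t₁ → Times t₂ → GaudinAt t₁ →
      (GaudinAt t₂ ↔ Tendsto (fun T => (t₁ T - t₂ T) * Real.log T ^ 2) atTop (𝓝 0)) := by
    intro t₁ t₂ h1 h2 h3
    rw [hGA _ h2]
    exact threshold RH hG h1 h2 ((hGA _ h1).1 h3)
  have hneg : ∀ t : ℝ → ℝ, Tendsto (fun T => ((0 : ℝ) - t T) * Real.log T ^ 2) atTop (𝓝 0) ↔
      Tendsto (fun T => t T * Real.log T ^ 2) atTop (𝓝 0) := by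
    intro t
    constructor
    · intro h
      have := h.neg
      rw [neg_zero] at this
      refine this.congr fun T => ?_
      ring
    · intro h
      have := h.neg
      rw [neg_zero] at this
      refine this.congr fun T => ?_
      ring
  have hgen : ∀ F : ℝ → ℝ, Continuous F → F 0 = 0 →
      Tendsto (fun x => ∫ s in (0 : ℝ)..x, (1 - F s)) atTop (𝓝 1) →
      (ZetaLaw F ↔ LawAt F (fun _ => 0)) ∧
      (∀ t₁ t₂ : ℝ → ℝ, Times t₁ → Times t₂ → LawAt F t₁ →
        (LawAt F t₂ ↔ Tendsto (fun T => (t₁ T - t₂ T) * Real.log T ^ 2) atTop (𝓝 0))) ∧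
      ((∃ A : ℕ, ∃ᶠ x : ℝ in 𝓝[>] 0, x ^ A ≤ F x) → ∀ t : ℝ → ℝ, Times t → LawAt F t →
        Tendsto (fun T => t T * Real.log T ^ 2) atTop (𝓝 0)) := by
    intro F hF hF0 hF1
    have hDF : (∀ a b, 0 ≤ a → a < b → F a ≤ F b) →
        GD (fun x => 1 - ∫ s in (0 : ℝ)..x, (1 - F s)) (fun x => F x - 1) := GD_of hF hF0 hF1
    have hsub : ∀ a b : ℝ, F b - F a = (F b - 1) - (F a - 1) := fun a b => by ring
    have hL : ∀ t : ℝ → ℝ, Times t → (LawAt F t ↔ GA (fun x => F x - 1) (fun T => t T / 4)) := by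
      intro t ht
      rw [← law_ga RH ht]
      refine forall_congr' fun a => forall_congr' fun b => forall_congr' fun ha => forall_congr' fun hab => ?_
      rw [hsub]
    have hmono : ∀ t : ℝ → ℝ, Times t → LawAt F t → ∀ a b, 0 ≤ a → a < b → F a ≤ F b := by
      intro t ht h a b ha hab
      have := ((hL t ht).1 h).mono a b ha hab
      linarith
    refine ⟨?_, ?_, ?_⟩
    · have key : (∀ a b, 0 ≤ a → a < b → F a ≤ F b) → (ZetaLaw F ↔ LawAt F (fun _ => 0)) := by
        intro hm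
        rw [hL _ zero_times]
        simp only [zero_div]
        rw [← q1_ga RH (hDF hm)]
        refine forall_congr' fun a => forall_congr' fun b => forall_congr' fun ha => forall_congr' fun hab => ?_
        rw [← hsub]
        simp only [set_eq]
      constructor
      · intro h
        refine (key fun a b ha hab => ?_).1 h
        have h1 : ∀ᶠ N : ℕ in atTop, (0 : ℝ) ≤
            ({n : ℕ | 1 ≤ n ∧ n ≤ N ∧ a < gap n ∧ gap n ≤ b}.ncard : ℝ) / N :=
          Eventually.of_forall fun N => by positivity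
        have h2 := ge_of_tendsto (h a b ha hab) h1
        linarith
      · intro h
        exact (key (hmono _ zero_times h)).2 h
    · intro t₁ t₂ h1 h2 h3
      rw [hL _ h2]
      exact threshold RH (hDF (hmono _ h1 h3)) h1 h2 ((hL _ h1).1 h3)
    · rintro ⟨A, hA⟩ t ht h
      refine only_zero RH (hDF (hmono _ ht h)) (A := A) ?_ ht ((hL _ ht).1 h)
      refine hA.mono fun x hx => hx.trans ?_
      refine le_trans (le_abs_self _) (le_of_eq ?_)
      congr 1
      ring
  refine ⟨fun t ht => ⟨fun h => ?_, fun h => ?_⟩, fun F hF hF0 hF1 hA t ht => ?_, fun A c hc => rare RH A hc,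
    fun F hF hF0 hF1 => ⟨(hgen F hF hF0 hF1).1, (hgen F hF hF0 hF1).2.1⟩⟩
  · obtain ⟨A, hA⟩ := Pool.Agent.P8H8.PC.gaudin_low g1 g4
    have hz := only_zero RH hG hA.frequently ht ((hGA t ht).1 h)
    refine ⟨?_, hz⟩
    rw [h0, hthr t _ ht zero_times h]
    simpa using hz
  · rw [hthr _ t zero_times ht (h0.1 h.1)]
    exact (hneg t).2 h.2
  · obtain ⟨e1, e2, e3⟩ := hgen F hF hF0 hF1
    constructor
    · intro h
      have hz := e3 hA t ht h
      refine ⟨?_, hz⟩
      rw [e1, e2 t _ ht zero_times h]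
      simpa using hz
    · intro h
      rw [e2 _ t zero_times ht (e1.1 h.1)]
      exact (hneg t).2 h.2

end Pool.Agent.Results.MP_21f43f_nt.HeatFlowGaudinExact
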