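import Pool.Agent.P8H69.OL.Fn
import Pool.Agent.P8H69.PL.Mo
import Pool.Agent.P8H69.PL.Cx
import Pool.Agent.P8H8.PC.Gaud

set_option autoImplicit false

/-!
# MP_21f43f_nt: the Gaudin law and the xi function off the critical line

`P h T s` is the probability that the real part of `e ^ (iθ) ξ(1/2 + h + iy)` has no zero `y` in the window
`(t, t + 2πs / log T)`, where `t` in `(0, T)` and `θ` in `(0, π)` are random (independent and uniformly distributed).
On the critical line, `h = 0`, where `ξ(1/2 + iy)` is real, this is the probability that the window contains no ordinate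
of a zero of zeta.  For `h > 0` the function `ξ(1/2 + h + iy)` has no zeros and winds around the origin, and
`P h T s` is the mean value of `max (1 - Δ / π) 0`, where `Δ` is the increment of its argument in the window.

On the Riemann hypothesis, as in the problem:

* For every function `h` with values in `[0, 1]`: `P (h T) T s` tends to the Fredholm determinant `det (I - K_s)` for
  all `s > 0` if and only if Q1 is true and `h(T) log T → 0`.
* The same is true of every law with a continuous distribution function `F` and mean `1` such that `F x ≥ x ^ A` for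
  some `A` and arbitrarily small `x > 0`.
* The reason: at the distances `h ≥ c / log T` a window of `s ≤ 1` mean spacings contains two or more zeros with a
  probability which is at most `K s ^ A` for every `A`, with `K = K(A, c)`.
* For all laws with a continuous distribution function and mean `1`: the law holds for the gaps of the zeta zeros if and
  only if it holds at the distance `h(T)`, if `h(T) log T → 0`; and if it holds at the distance `h₁ T`, then it holds at
  the distance `h₂ T` if and only if `(h₁ - h₂) log T → 0`.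
* `P h T s` decreases with the distance `h`, up to `o(1)`, and `P h T 1` decreases strictly at the scale `1 / log T`.
* If `h(T) log T → ∞` then `P (h T) T s` tends to `max (1 - s) 0`, its value for equally spaced points.
-/

open Filter Topology MeasureTheory

namespace Pool.Agent.Results.MP_21f43f_nt.OffTheLineExact

/-- multiplicity of `s` as a zero of the Riemann zeta function (order of vanishing at `s`) -/
noncomputable def zmult (s : ℂ) : ℕ := analyticOrderNatAt riemannZeta s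

/-- the number of nontrivial zeros of `ζ` with ordinate in `(0, t]`, with multiplicity -/
noncomputable def NZ (t : ℝ) : ℕ :=
  ∑ᶠ s ∈ {s : ℂ | riemannZeta s = 0 ∧ 0 < s.re ∧ s.re < 1 ∧ 0 < s.im ∧ s.im ≤ t}, zmult s

/-- for `n ≥ 1`: `γ_n`, the `n`-th positive ordinate of a nontrivial zero of `ζ`, the ordinates
being listed in nondecreasing order and repeated according to multiplicity -/
noncomputable def ord (n : ℕ) : ℝ := sInf {t : ℝ | n ≤ NZ t}

/-- the normalised ordinate `(1 / 2π) γ_n log γ_n` -/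
noncomputable def nord (n : ℕ) : ℝ := 1 / (2 * Real.pi) * ord n * Real.log (ord n)

/-- the normalised gap `δ_n` between the `n`-th and the `(n+1)`-st zero -/
noncomputable def gap (n : ℕ) : ℝ := nord (n + 1) - nord n

/-- the sine kernel -/
noncomputable def sineKernel (x y : ℝ) : ℝ :=
  if x = y then 1 else Real.sin (Real.pi * (x - y)) / (Real.pi * (x - y))

/-- the Fredholm determinant of `I - K_s` on `L²(0, s)`, given by its Fredholm series -/
noncomputable def gaudinDet (s : ℝ) : ℝ := ∑' k : ℕ, (-1) ^ k / (k.factorial : ℝ) *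
  ∫ x in Set.Icc (0 : Fin k → ℝ) (fun _ => s), Matrix.det (Matrix.of fun i j : Fin k => sineKernel (x i) (x j))

/-- the Gaudin density -/
noncomputable def p (s : ℝ) : ℝ := deriv (deriv gaudinDet) s

/-- Q1 of the problem. -/
def Q1 : Prop := ∀ a b : ℝ, 0 ≤ a → a < b →
  Tendsto (fun N : ℕ => ({n : ℕ | 1 ≤ n ∧ n ≤ N ∧ a < gap n ∧ gap n ≤ b}.ncard : ℝ) / N) atTop
    (𝓝 (∫ s in a..b, p s))

/-- The law with distribution function `F` for the gaps `δ_n`. -/
def ZetaLaw (F : ℝ → ℝ) : Prop := ∀ a b : ℝ, 0 ≤ a → a < b →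
  Tendsto (fun N : ℕ => ({n : ℕ | 1 ≤ n ∧ n ≤ N ∧ a < gap n ∧ gap n ≤ b}.ncard : ℝ) / N) atTop
    (𝓝 (F b - F a))

/-- The Riemann xi function `ξ(s) = s (s - 1) / 2 * π ^ (-s / 2) * Γ (s / 2) * ζ(s)`. -/
noncomputable def xi (s : ℂ) : ℂ := (s * (s - 1) * completedRiemannZeta₀ s + 1) / 2

/-- The angles `θ` in `(0, π)` for which the real part of `e ^ (iθ) ξ(1/2 + h + iy)` has no zero `y` in `(t, t + b)`. -/
def angles (h t b : ℝ) : Set ℝ := {θ : ℝ | 0 < θ ∧ θ < Real.pi ∧ ∀ y : ℝ, t < y → y < t + b →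
  (Complex.exp (Complex.I * θ) * xi (1 / 2 + h + Complex.I * y)).re ≠ 0}

/-- The void probability at the distance `h` from the critical line, for windows of `s` mean spacings:
`(1 / (π T)) * ∫₀ᵀ |angles h t (2πs / log T)| dt`. -/
noncomputable def P (h T s : ℝ) : ℝ :=
  1 / (Real.pi * T) * ∫ t in (0 : ℝ)..T, (volume (angles h t (2 * Real.pi * s / Real.log T))).toReal

/-- The Gaudin law at the distances `h T`. -/
def GaudinAt (h : ℝ → ℝ) : Prop := ∀ s : ℝ, 0 < s → Tendsto (fun T : ℝ => P (h T) T s) atTop (𝓝 (gaudinDet s))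

/-- The law with distribution function `F` at the distances `h T`. -/
def LawAt (F : ℝ → ℝ) (h : ℝ → ℝ) : Prop := ∀ s : ℝ, 0 < s →
  Tendsto (fun T : ℝ => P (h T) T s) atTop (𝓝 (1 - ∫ u in (0 : ℝ)..s, (1 - F u)))

/-- The range of the distances. -/
def Dist (h : ℝ → ℝ) : Prop := ∀ T, 0 ≤ h T ∧ h T ≤ 1

section Proof

open Pool.Agent.P8H8.HF Pool.Agent.P8H69.OL Pool.Agent.P8H69.PL
open Pool.Agent.H24R2.JP (XX)

/-- `xi` is the Riemann xi function. -/
lemma xi_eq {s : ℂ} (h0 : s ≠ 0) (h1 : s ≠ 1) : xi s = s * (s - 1) / 2 * completedRiemannZeta s := by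
  unfold xi
  rw [completedRiemannZeta_eq]
  have h2 : 1 - s ≠ 0 := sub_ne_zero.2 (Ne.symm h1)
  field_simp
  ring

lemma kernel_eq (x y : ℝ) : sineKernel x y = Real.sinc (Real.pi * (x - y)) := by
  unfold sineKernel Real.sinc
  by_cases h : x = y
  · rw [if_pos h, if_pos]
    rw [h]
    ring
  · rw [if_neg h, if_neg]
    intro h1
    rcases mul_eq_zero.1 h1 with h2 | h2
    · exact Real.pi_ne_zero h2
    · exact h (by linarith)

lemma gaudinDet_eq : gaudinDet = fred := by
  funext s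
  unfold gaudinDet fred fint sdet
  simp only [kernel_eq]

lemma set_eq (N : ℕ) (a b : ℝ) : {n : ℕ | 1 ≤ n ∧ n ≤ N ∧ a < gap n ∧ gap n ≤ b}.ncard = cnt dl N a b := by
  classical
  have hg : ∀ k, gap (k + 1) = dl k := fun k => rfl
  unfold cnt
  rw [← Set.ncard_coe_finset]
  symm
  apply Set.ncard_congr (fun k _ => k + 1)
  · intro k hk
    rw [Finset.mem_coe, Finset.mem_filter, Finset.mem_range] at hk
    refine ⟨by omega, by omega, ?_, ?_⟩
    · rw [hg]; exact hk.2.1
    · rw [hg]; exact hk.2.2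
  · intro k k' _ _ h
    omega
  · rintro n ⟨h1, h2, h3, h4⟩
    obtain ⟨k, rfl⟩ : ∃ k, n = k + 1 := ⟨n - 1, by omega⟩
    rw [hg] at h3 h4
    refine ⟨k, ?_, rfl⟩
    rw [Finset.mem_coe, Finset.mem_filter, Finset.mem_range]
    exact ⟨by omega, h3, h4⟩

lemma xi_XX (h y : ℝ) : xi (1 / 2 + h + Complex.I * y) = XX ((h : ℂ) + y * Complex.I) / 8 := by
  unfold xi Pool.Agent.H24R2.JP.XX
  have e : (1 / 2 + (h : ℂ) + Complex.I * y) = 1 / 2 + ((h : ℂ) + y * Complex.I) := by ring
  rw [e]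
  ring

lemma P_eq (RH : RiemannHypothesis) {h T s : ℝ} (hh : 0 ≤ h) (hT : 1 < T) (hs : 0 < s) : P h T s = PP gm h T s := by
  rw [← void_eq RH hh hT hs]
  unfold P angles
  simp only [xi_XX]

lemma P_lim (RH : RiemannHypothesis) {h : ℝ → ℝ} (hh : Dist h) {s E : ℝ} (hs : 0 < s) :
    Tendsto (fun T => P (h T) T s) atTop (𝓝 E) ↔ Tendsto (fun T => PP gm (h T) T s) atTop (𝓝 E) := by
  apply tendsto_congr'
  filter_upwards [eventually_gt_atTop 1] with T hT
  exact P_eq RH (hh T).1 hT hs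

lemma zero_dist : Dist (fun _ => 0) := fun _ => ⟨le_rfl, zero_le_one⟩

/-- the threshold for a general limit -/
lemma thr (RH : RiemannHypothesis) {E : ℝ → ℝ} {d : ℝ} (hd : HasDerivAt E d 1) {h₁ h₂ : ℝ → ℝ} (b1 : Dist h₁)
    (b2 : Dist h₂) (hL : ∀ s, 0 < s → Tendsto (fun T => P (h₁ T) T s) atTop (𝓝 (E s))) :
    (∀ s, 0 < s → Tendsto (fun T => P (h₂ T) T s) atTop (𝓝 (E s))) ↔
      Tendsto (fun T => (h₁ T - h₂ T) * Real.log T) atTop (𝓝 0) := by
  have hL' : ∀ s, 0 < s → Tendsto (fun T => PP gm (h₁ T) T s) atTop (𝓝 (E s)) :=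
    fun s hs => (P_lim RH b1 hs).1 (hL s hs)
  rw [← PP_thr (gm_zd RH) (law_pos (gm_zd RH) hd b1 hL') b1 b2 hL']
  exact forall_congr' fun s => forall_congr' fun hs => P_lim RH b2 hs

end Proof

/-- The theorem. -/
theorem result (RH : RiemannHypothesis) :
    (∀ h : ℝ → ℝ, Dist h → (GaudinAt h ↔ Q1 ∧ Tendsto (fun T => h T * Real.log T) atTop (𝓝 0))) ∧
    (∀ F : ℝ → ℝ, Continuous F → F 0 = 0 → Tendsto (fun x => ∫ s in (0 : ℝ)..x, (1 - F s)) atTop (𝓝 1) →
      ((∃ A : ℕ, ∀ δ : ℝ, 0 < δ → ∃ x, 0 < x ∧ x < δ ∧ x ^ A ≤ F x) → ∀ h : ℝ → ℝ, Dist h →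
        (LawAt F h ↔ ZetaLaw F ∧ Tendsto (fun T => h T * Real.log T) atTop (𝓝 0))) ∧
      (∀ h : ℝ → ℝ, Dist h → Tendsto (fun T => h T * Real.log T) atTop (𝓝 0) → (ZetaLaw F ↔ LawAt F h)) ∧
      (∀ h₁ h₂ : ℝ → ℝ, Dist h₁ → Dist h₂ → LawAt F h₁ →
        (LawAt F h₂ ↔ Tendsto (fun T => (h₁ T - h₂ T) * Real.log T) atTop (𝓝 0)))) ∧
    (∀ (A : ℕ) (c : ℝ), 0 < c → ∃ K : ℝ, 0 < K ∧ ∀ s ε : ℝ, 0 < s → s ≤ 1 → 0 < ε → ∀ᶠ T in atTop, ∀ h : ℝ,
      0 ≤ h → h ≤ 1 → c ≤ h * Real.log T → P h T s ≤ 1 - s + K * s ^ A + ε) ∧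
    (∀ s ε : ℝ, 0 < s → 0 < ε → ∀ᶠ T in atTop, ∀ h h' : ℝ, 0 ≤ h → h ≤ h' → h' ≤ 1 → P h' T s ≤ P h T s + ε) ∧
    (∀ c e : ℝ, 0 < c → 0 < e → ∃ κ : ℝ, 0 < κ ∧ ∀ᶠ T in atTop, ∀ h h' : ℝ, 0 ≤ h → h' ≤ 1 →
      c ≤ (h' - h) * Real.log T → e ≤ P h T 1 → P h' T 1 ≤ P h T 1 - κ) ∧
    (∃ e : ℝ, 0 < e ∧ ∀ᶠ T in atTop, e ≤ P 0 T 1) ∧
    (∀ h : ℝ → ℝ, Dist h → Tendsto (fun T => h T * Real.log T) atTop atTop → ∀ s : ℝ, 0 < s →
      Tendsto (fun T => P (h T) T s) atTop (𝓝 (max (1 - s) 0))) := by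
  open Pool.Agent.P8H8.HF Pool.Agent.P8H69.OL Pool.Agent.P8H69.PL in
  have hZ := gm_zd RH
  have hZq := gm_zq RH
  -- the Gaudin law is in the class
  obtain ⟨D0, D1, D2, g1, g2, g3, g4, g5, g6⟩ := gaudin_reg
  have hG : GD D0 D1 := by
    have hc : Continuous D1 := by
      rw [continuous_iff_continuousAt]
      exact fun x => (g2 x).continuousAt
    refine ⟨g1, hc, g5, g6, fun s hs => ?_, ?_⟩
    · have h := fred_bd hs
      rw [g4 s hs]
      refine ⟨h.1, h.2.trans ?_⟩
      rw [Real.exp_le_one_iff]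
      linarith
    · refine squeeze_zero' (g := fun s => Real.exp (-s)) ?_ ?_ (Real.tendsto_exp_neg_atTop_nhds_zero)
      · filter_upwards [eventually_gt_atTop 0] with s hs
        rw [g4 s hs]
        exact (fred_bd hs).1
      · filter_upwards [eventually_gt_atTop 0] with s hs
        rw [g4 s hs]
        exact (fred_bd hs).2
  have hp : ∀ a b : ℝ, 0 ≤ a → a < b → ∫ s in a..b, p s = D1 b - D1 a := by
    intro a b ha hab
    unfold p
    rw [gaudinDet_eq]
    exact dens_int g1 g2 g3 g4 ha hab.le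
  have hGA : ∀ h : ℝ → ℝ, GaudinAt h ↔ ∀ s : ℝ, 0 < s → Tendsto (fun T : ℝ => P (h T) T s) atTop (𝓝 (D0 s)) := by
    intro h
    refine forall_congr' fun s => forall_congr' fun hs => ?_
    rw [gaudinDet_eq, g4 s hs]
  have hQ0 : Q1 ↔ GaudinAt (fun _ => 0) := by
    have hQ : Q1 ↔ GA D1 (fun _ => 0) := by
      rw [← q1_ga RH hG]
      refine forall_congr' fun a => forall_congr' fun b => forall_congr' fun ha => forall_congr' fun hab => ?_
      rw [hp a b ha hab]
      simp only [set_eq]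
    rw [hQ, void_ga RH hG, hGA]
    exact forall_congr' fun s => forall_congr' fun hs => (P_lim RH zero_dist hs).symm
  have hthr : ∀ h₁ h₂ : ℝ → ℝ, Dist h₁ → Dist h₂ → GaudinAt h₁ →
      (GaudinAt h₂ ↔ Tendsto (fun T => (h₁ T - h₂ T) * Real.log T) atTop (𝓝 0)) := by
    intro h₁ h₂ b1 b2 hL
    rw [hGA] at hL ⊢
    exact thr RH (g1 1) b1 b2 hL
  -- transfer from the line
  have htrans : ∀ {h : ℝ → ℝ} (C : (ℝ → ℝ) → Prop), Dist h →
      Tendsto (fun T => h T * Real.log T) atTop (𝓝 0) →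
      (∀ h₁ h₂ : ℝ → ℝ, Dist h₁ → Dist h₂ → C h₁ → (C h₂ ↔ Tendsto (fun T => (h₁ T - h₂ T) * Real.log T) atTop (𝓝 0))) →
      (C (fun _ => 0) ↔ C h) := by
    intro h C hd hlim hC
    have hneg : Tendsto (fun T => (0 - h T) * Real.log T) atTop (𝓝 0) := by
      have := hlim.neg
      rw [neg_zero] at this
      refine this.congr fun T => ?_
      ring
    constructor
    · intro h0
      exact (hC _ h zero_dist hd h0).2 hneg
    · intro h0
      refine (hC h _ hd zero_dist h0).2 ?_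
      simpa using hlim
  -- exactness
  have hexact : ∀ {E E1 : ℝ → ℝ}, GW E E1 → E 0 = 1 →
      (∃ A : ℕ, ∀ δ : ℝ, 0 < δ → ∃ x, 0 < x ∧ x < δ ∧ x ^ A ≤ |1 + E1 x|) → ∀ h : ℝ → ℝ, Dist h →
      (∀ s, 0 < s → Tendsto (fun T => P (h T) T s) atTop (𝓝 (E s))) →
      Tendsto (fun T => h T * Real.log T) atTop (𝓝 0) := by
    intro E E1 hW h0 hlow h hd hL
    have hL' : ∀ s, 0 < s → Tendsto (fun T => PP gm (h T) T s) atTop (𝓝 (E s)) :=
      fun s hs => (P_lim RH hd hs).1 (hL s hs)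
    have hm := law_mono hW hd hL'
    refine P_exact hZq hd hL' (low_of hW h0 hm ?_)
    obtain ⟨A, hA⟩ := hlow
    refine ⟨A, fun δ hδ => ?_⟩
    obtain ⟨x, hx, hx1, hx2⟩ := hA δ hδ
    refine ⟨x, hx, hx1, ?_⟩
    have := hm 0 x le_rfl hx
    rw [hW.z1] at this
    rwa [abs_of_nonneg (by linarith)] at hx2
  refine ⟨fun h hd => ?_, fun F hF hF0 hF1 => ?_, ?_, ?_, ?_, ?_, ?_⟩
  · have hc : Continuous D1 := hG.c1
    constructor
    · intro hg
      have hlim : Tendsto (fun T => h T * Real.log T) atTop (𝓝 0) := by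
        refine hexact ⟨g1, hc, g6⟩ g5 ?_ h hd ((hGA h).1 hg)
        obtain ⟨A, hA⟩ := Pool.Agent.P8H8.PC.gaudin_low g1 g4
        refine ⟨A, fun δ hδ => ?_⟩
        obtain ⟨x, hx1, hx2⟩ := (hA.and (Ioo_mem_nhdsGT hδ)).exists
        exact ⟨x, hx2.1, hx2.2, hx1⟩
      exact ⟨hQ0.2 ((htrans GaudinAt hd hlim hthr).2 hg), hlim⟩
    · rintro ⟨hq, hlim⟩
      exact (htrans GaudinAt hd hlim hthr).1 (hQ0.1 hq)
  · have hc : Continuous (fun s => 1 - F s) := by fun_prop
    have hGW : GW (fun x => 1 - ∫ s in (0 : ℝ)..x, (1 - F s)) (fun x => F x - 1) := by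
      refine ⟨fun x => ?_, by fun_prop, by simp [hF0]⟩
      have h2 := (intervalIntegral.integral_hasDerivAt_right (hc.intervalIntegrable 0 x)
        (hc.stronglyMeasurableAtFilter _ _) hc.continuousAt).const_sub 1
      rw [neg_sub] at h2
      exact h2
    have hthrF : ∀ h₁ h₂ : ℝ → ℝ, Dist h₁ → Dist h₂ → LawAt F h₁ →
        (LawAt F h₂ ↔ Tendsto (fun T => (h₁ T - h₂ T) * Real.log T) atTop (𝓝 0)) := by
      intro h₁ h₂ b1 b2 hL
      exact thr RH (hGW.d0 1) b1 b2 hL
    have hsub : ∀ a b : ℝ, F b - F a = (F b - 1) - (F a - 1) := fun a b => by ring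
    have key : (∀ a b, 0 ≤ a → a < b → F a ≤ F b) → (ZetaLaw F ↔ LawAt F (fun _ => 0)) := by
      intro hm
      have hD := GD_of hF hF0 hF1 hm
      have h1 : ZetaLaw F ↔ GA (fun x => F x - 1) (fun _ => 0) := by
        rw [← q1_ga RH hD]
        refine forall_congr' fun a => forall_congr' fun b => forall_congr' fun ha => forall_congr' fun hab => ?_
        rw [← hsub]
        simp only [set_eq]
      rw [h1, void_ga RH hD]
      exact forall_congr' fun s => forall_congr' fun hs => (P_lim RH zero_dist hs).symm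
    have h0 : ZetaLaw F ↔ LawAt F (fun _ => 0) := by
      constructor
      · intro h
        refine (key fun a b ha hab => ?_).1 h
        have h1 : ∀ᶠ N : ℕ in atTop, (0 : ℝ) ≤
            ({n : ℕ | 1 ≤ n ∧ n ≤ N ∧ a < gap n ∧ gap n ≤ b}.ncard : ℝ) / N :=
          Eventually.of_forall fun N => by positivity
        have h2 := ge_of_tendsto (h a b ha hab) h1
        linarith
      · intro h
        refine (key fun a b ha hab => ?_).2 h
        have h1 := void_mono RH hGW (fun s hs => (P_lim RH zero_dist hs).1 (h s hs)) a b ha hab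
        linarith
    have hnear : ∀ h : ℝ → ℝ, Dist h → Tendsto (fun T => h T * Real.log T) atTop (𝓝 0) → (ZetaLaw F ↔ LawAt F h) := by
      intro h hd hlim
      rw [h0]
      exact htrans (LawAt F) hd hlim hthrF
    refine ⟨fun hlow h hd => ⟨fun hg => ?_, fun hq => (hnear h hd hq.2).1 hq.1⟩, hnear, hthrF⟩
    have hlim : Tendsto (fun T => h T * Real.log T) atTop (𝓝 0) := by
      refine hexact hGW (by simp) ?_ h hd hg
      obtain ⟨A, hA⟩ := hlow
      refine ⟨A, fun δ hδ => ?_⟩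
      obtain ⟨x, hx, hx1, hx2⟩ := hA δ hδ
      refine ⟨x, hx, hx1, ?_⟩
      rw [show 1 + (F x - 1) = F x by ring]
      exact hx2.trans (le_abs_self _)
    exact ⟨(hnear h hd hlim).2 hg, hlim⟩
  · intro A c hc
    obtain ⟨K, hK, hr⟩ := P_rare hZq (show 2 ≤ A + 2 by omega) hc
    refine ⟨K, hK, fun s ε hs hs1 hε => ?_⟩
    filter_upwards [hr s ε hs hs1 hε, eventually_gt_atTop 1] with T h1 h2 h a1 a2 a3
    rw [P_eq RH a1 h2 hs]
    refine (h1 h a1 a2 a3).trans ?_
    have h3 : s ^ (A + 2) ≤ s ^ A := pow_le_pow_of_le_one hs.le hs1 (by omega)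
    have h4 := mul_le_mul_of_nonneg_left h3 hK.le
    linarith
  · intro s ε hs hε
    have hsq : Tendsto (fun T : ℝ => 3 * (1 / Real.sqrt T)) atTop (𝓝 0) := by
      have := (Real.tendsto_sqrt_atTop.const_div_atTop 1).const_mul 3
      rwa [mul_zero] at this
    filter_upwards [hsq.eventually (gt_mem_nhds hε), eventually_gt_atTop 1] with T h1 h2 h h' a1 a2 a3
    rw [P_eq RH (a1.trans a2) h2 hs, P_eq RH a1 h2 hs]
    have := PP_mono (γ := gm) (s := s) a1 a2 a3 (show 0 < T by linarith)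
    linarith
  · intro c e hc he
    obtain ⟨κ, hκ, hsd⟩ := PP_sd hZ hc he
    refine ⟨κ, hκ, ?_⟩
    filter_upwards [hsd, eventually_gt_atTop 1] with T h1 h2 h h' a1 a2 a3 a4
    have hl : 0 < Real.log T := Real.log_pos h2
    have hh' : 0 ≤ h' := by
      have : 0 < h' - h := by
        by_contra hcon
        rw [not_lt] at hcon
        have := mul_nonpos_of_nonpos_of_nonneg hcon hl.le
        linarith
      linarith
    rw [P_eq RH a1 h2 one_pos] at a4 ⊢
    rw [P_eq RH hh' h2 one_pos]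
    exact h1 h h' a1 a2 a3 a4
  · obtain ⟨e, he, h⟩ := line_pos RH
    refine ⟨e, he, ?_⟩
    filter_upwards [h, eventually_gt_atTop 1] with T h1 h2
    rw [P_eq RH le_rfl h2 one_pos]
    exact h1
  · intro h hd hlim s hs
    exact (P_lim RH hd hs).2 (PP_far hZ hs hd hlim)

end Pool.Agent.Results.MP_21f43f_nt.OffTheLineExact
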