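import Pool.Agent.P8H60.EN.RunV
import Pool.Agent.P8H60.EN.Plv
import Pool.Agent.P8H60.EN.FinS
import Pool.Agent.P8H60.EN.AttA
import Pool.Agent.P8H21.EN.Atb
import Pool.Agent.P8H75.EN.Finv
import Pool.Agent.P8H69.EN.Maxv
import Pool.Agent.P8H4.EN.War
import Pool.Agent.P8H94.EN.Rec
import Pool.Agent.P8H60.EN.Rcv
import Pool.Agent.P8H38.EN.Pol
import Pool.Agent.P8H4.EN.Ssb
import Pool.Agent.P8H4.EN.Qf
import Pool.Agent.P8H53.EN.Tp
import Pool.Agent.P8H78.EN.Chb
import Pool.Agent.P8H94.EN.All
import Pool.Agent.P8H45.EN.Cos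
import Pool.Agent.P8H45.EN.Ls
import Pool.Agent.P8H69.EN.Cfq
import Pool.Agent.P8H69.EN.Low
import Pool.Agent.P8H54.EN.Err
import Pool.Agent.P8H54.EN.Cf
import Pool.Agent.P8H60.BW.Gap
import Pool.Agent.P8H67.LM.TW
import Pool.Agent.P8H7.BC.GL
import Pool.Agent.P8H76.BC.CH
import Pool.Agent.P8H45.BC.LG
import Pool.Agent.P8H29.BC.CH2
import Pool.Agent.P8H29.BC.AV

/-!
# MP_21f43f_nt: the complexity of the runs of `L` gaps between zeta zeros is at least a power of `L`

According to the conjecture the normalised gaps `δ_n` behave like those of random matrices; then the sums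
`S_n(j) = δ_n + ⋯ + δ_{n+j-1}`, `j ≤ L`, deviate from `j` by a logarithmically correlated normal field of
variance about `π⁻² log L`, which has about `L ^ a` (`a < 1`) nearly independent components: the runs of
`L` gaps cannot be described by a rule with few parameters.  We prove this, without any hypothesis, for the
zeros of `ζ`, with the sharp constant.

Let `p(r) = P(|g| ≤ r)`, `g` standard normal, and `σ = √(2 log L) / 2π`.  For all `r, ε, η, θ > 0` there is
`c > 0` such that for all large `L` and all `N` with `L ^ (1 + θ) ≤ log N`, for all but at most `η N` of the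
`n ≤ N`, at most a proportion `p(r) + ε` of the places `j` is such that `S_n(j)` and `f(j)` differ by at most
`r σ`, for all `f` of each of the following families:

* the solutions of linear recurrences of order at most `L ^ c` (so the linear complexity of the run of
  the zeros `γ_n, …, γ_{n+L}` is at least `L ^ c`, even if one asks only for agreement up to `r σ`, `r` as
  large as one likes, at a proportion of the places larger than `p(r)`), for all longer runs at once;
* the curves `f(j) = P_j(x)`, where the `P_j` are given polynomials of degree at most `exp (L ^ c)` in at most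
  `L ^ c` real parameters `x` (this contains every given set of at most `exp (L ^ c)` sequences, by
  interpolation, the splines with `L ^ c` given knots, and so on);
* all families closed under shifts and the addition of constants which have at most `exp (c k)` sign
  patterns along the progressions of `k` places, `L ^ c ≤ k ≤ L`, for all longer runs at once.

The proportion `p(r)` is attained by the straight line `f(j) = c + j`, and with about `L ^ a` pieces of slope
`1`, `0 < a < 1`, the larger proportion `p(r / √(1 - a))` is attained; so `p(r)` is the best proportion for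
curves with `L ^ o(1)` parameters, and `L ^ o(1)` is the exact threshold.  The gaps themselves are at a distance
`> c` from the increments of every function of low complexity at a positive proportion of the places.

Related starting files: `MP_0ec205_nt.AgreementWithBoundedComplexity` (a given class of bounded
pseudo-dimension, distances `δ(ρ) √(log L)` with a small `δ(ρ)` for a proportion `ρ` of the places),
`MP_0ec205_nt.FarFromRecurrences` (recurrences of fixed order, maximum norm),
`MP_0ec205_nt.NoLocalRecurrence` (recurrences of fixed order with an error `ε / log γ_n`, at least one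
place).  New here are the complexity `L ^ c`, the sharp proportion `p(r)` for every `r`, its attainment by
the straight line, all longer runs at once, the curves with `L ^ a` pieces, and part (5).

Idea of the proof.  Take `K` places (`K` a small power of `L`) at distance `≥ L ^ (1 - 3 c)`.  At all but few
of them and for most heights the fluctuation of the number of zeros is given by a prime polynomial
`Y_i(t)` of length `T ^ (1 / (4 n))`, `n = A K ^ 2`, where moments of order `2 n` can be evaluated; hence the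
characteristic function of `(Y_1, …, Y_K)` at a bounded vector is Gaussian up to a relative error
`exp (-B K)` with `B` as large as one likes.  By a prime number sum over `log T / L ^ (1 - 7 c) < log p` the
covariance matrix is at least `1 - 12 c - o(1)` times the identity.  With a trigonometric majorant of an
interval the probability that `|Y_i - v_i| ≤ r'` for more than `(p(r) + ε) K` of the `i` is therefore at
most `exp (-c₁ K)`, uniformly in the vector `v`, and one may sum over the `exp (c₁ K / 2)` boxes which cover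
the restrictions of the family to the `K` places.  Polynomial families have few sign patterns by
Warren's theorem, and the solutions of linear recurrences of order `d` are polynomials in `2 d` parameters.
All places are reached by averaging over progressions, all longer runs by a maximal inequality.

(Packages of the proof are due to helper53 (TP), helper78 (CHB), helper94 (TAY, DEC, REC), helper4 (SSB,
QF, WAR), helper69 (CFQ, LOW, MAXV), helper45 (COS, LS, LG, FC), helper54 (CF, ERR), helper71 (PL), helper75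
(FINV), helper38 (POL), helper21 (ATB), helper67 (TW), helper7 (GL), helper76 (CH) and helper29 (CH2, AV).)
-/

set_option autoImplicit false

namespace Pool.Agent.Results.MP_21f43f_nt.RunComplexity

open MeasureTheory ProbabilityTheory

/-- multiplicity of `s` as a zero of the Riemann zeta function (order of vanishing at `s`) -/
noncomputable def zmult (s : ℂ) : ℕ := analyticOrderNatAt riemannZeta s

/-- the number of nontrivial zeros of `ζ` with ordinate in `(0, t]`, with multiplicity -/
noncomputable def NZ (t : ℝ) : ℕ :=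
  ∑ᶠ s ∈ {s : ℂ | riemannZeta s = 0 ∧ 0 < s.re ∧ s.re < 1 ∧ 0 < s.im ∧ s.im ≤ t}, zmult s

/-- for `n ≥ 1`: the `n`-th positive ordinate `γ n` of a nontrivial zero of `ζ`, the ordinates being
listed in nondecreasing order and repeated according to multiplicity -/
noncomputable def γ (n : ℕ) : ℝ := sInf {t : ℝ | n ≤ NZ t}

/-- the normalised gaps `δ_n = (γ_{n+1} log γ_{n+1} - γ_n log γ_n) / 2π` -/
noncomputable def δ (n : ℕ) : ℝ :=
  (γ (n + 1) * Real.log (γ (n + 1)) - γ n * Real.log (γ n)) / (2 * Real.pi)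

/-- the sum of `j` consecutive normalised gaps, beginning with `δ_n` -/
noncomputable def S (n j : ℕ) : ℝ := ∑ i ∈ Finset.range j, δ (n + i)

/-- the probability `P(|g| ≤ r)` for a random variable `g` with the standard normal law -/
noncomputable def p (r : ℝ) : ℝ := (gaussianReal 0 1).real (Set.Icc (-r) r)

/-- the number of the places `0 ≤ j ≤ l` where the distance of `S n j` and `f j` is at most
`r √(2 log L) / (2 π)` -/
noncomputable def hits (r : ℝ) (L l n : ℕ) (f : ℕ → ℝ) : ℕ :=
  {j : ℕ | j ≤ l ∧ |S n j - f j| ≤ r * Real.sqrt (2 * Real.log L) / (2 * Real.pi)}.ncard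

/-- the number of the `n` with `1 ≤ n ≤ N` which belong to `E` -/
noncomputable def cnt (N : ℕ) (E : Set ℕ) : ℝ := ({n : ℕ | 1 ≤ n ∧ n ≤ N ∧ n ∈ E}.ncard : ℝ)

/-- `f` satisfies a linear recurrence `b_0 f(j) + ⋯ + b_d f(j+d) = 0` (all `j ≥ 0`) of order at most `d` with
constant real coefficients which are not all `0` -/
def Rec (d : ℕ) (f : ℕ → ℝ) : Prop :=
  ∃ b : Fin (d + 1) → ℝ, b ≠ 0 ∧ ∀ j : ℕ, ∑ l : Fin (d + 1), b l * f (j + l) = 0

/-- the family `F` is closed under the addition of real constants and under the shift -/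
def Closed (F : Set (ℕ → ℝ)) : Prop :=
  (∀ f ∈ F, ∀ b : ℝ, (fun j => f j + b) ∈ F) ∧ ∀ f ∈ F, (fun j => f (j + 1)) ∈ F

/-- for all real `y_i` there are at most `g` sets of the form `{i < k | f(i s) ≤ y_i}`, `f` in `F` -/
def Few (g : ℝ) (s k : ℕ) (F : Set (ℕ → ℝ)) : Prop :=
  ∀ y : Fin k → ℝ, ({A : Set (Fin k) | ∃ f ∈ F, A = {i : Fin k | f (i * s) ≤ y i}}.ncard : ℝ) ≤ g

/-- **Theorem** (no hypothesis).  Let `r, ε, η, θ > 0`.  There are `c > 0` and `L₀` such that for all
`L ≥ L₀` and all `N` with `L ^ (1 + θ) ≤ log N`: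

(1) for every `d ≤ L ^ c`, for all but at most `η N` of the `n ≤ N`: for every `L'` with `L ≤ L' ≤ N` and every
real sequence `f` which satisfies a linear recurrence of order at most `d`, at most `(p(r) + ε) L'` of the
places `j ≤ L'` are such that `|S_n(j) - f(j)| ≤ r √(2 log L) / (2 π)`;

(2) for all real polynomials `P_0, P_1, …` in `D ≤ L ^ c` variables such that the degree of `P_j` is at most
`exp (L ^ c)` for `j ≤ L`, for all but at most `η N` of the `n ≤ N`: for every `x` in `ℝ ^ D`, at most
`(p(r) + ε) L` of the places `j ≤ L` are such that `|S_n(j) - P_j(x)| ≤ r √(2 log L) / (2 π)`;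

(3) for every family `F` of real sequences, closed under shifts and the addition of constants, which has
at most `exp (c k)` sign patterns along the progressions `0, s, …, (k - 1) s`, `1 ≤ s ≤ L`, `L ^ c ≤ k ≤ L`:
the statement of (1) holds for all `f` in `F`.

(4) The bound is sharp, and the exponent cannot be arbitrary: let `0 ≤ a < 1`; for all large `L` and all `N`
with `L ^ (1 + θ) ≤ log N`, for all but at most `η N` of the `n ≤ N` there is a real sequence `f` with
`f(j+1) = f(j) + 1` for all but at most `L ^ a - 1` of the `j < L` (for `a = 0`: the line `f(0) + j`) such that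
at least `(p(r / √(1 - a)) - ε) L` of the places `j ≤ L` are such that `|S_n(j) - f(j)| ≤ r √(2 log L) / (2 π)`.

(5) If `G` is subexponential and `η > 0`, there are `c > 0`, `L₀` and `N₀` such that for all `N ≥ N₀` and
every family `F`, closed under shifts and the addition of constants, with at most `G(k)` sign patterns
along all progressions of `k` places, for all but at most `η N` of the `n ≤ N`: for every `L'` with
`L₀ ≤ L' ≤ N` and every `f` in `F` at least `c L'` of the places `j ≤ L'` are such that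
`|δ_{n+j} - (f(j+1) - f(j))| > c`. -/
theorem result :
    (∀ r ε η θ : ℝ, 0 < r → 0 < ε → 0 < η → 0 < θ → ∃ c : ℝ, 0 < c ∧ ∃ L₀ : ℕ, ∀ L N : ℕ, L₀ ≤ L →
      (L : ℝ) ^ (1 + θ) ≤ Real.log N →
      (∀ d : ℕ, (d : ℝ) ≤ (L : ℝ) ^ c →
        cnt N {n | ∃ L' : ℕ, L ≤ L' ∧ L' ≤ N ∧ ∃ f : ℕ → ℝ, Rec d f ∧
          (p r + ε) * L' < (hits r L L' n f : ℝ)} ≤ η * N) ∧
      (∀ (D : ℕ) (P : ℕ → MvPolynomial (Fin D) ℝ), (D : ℝ) ≤ (L : ℝ) ^ c →
        (∀ j ≤ L, ((P j).totalDegree : ℝ) ≤ Real.exp ((L : ℝ) ^ c)) →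
        cnt N {n | ∃ x : Fin D → ℝ,
          (p r + ε) * L < (hits r L L n (fun j => MvPolynomial.eval x (P j)) : ℝ)} ≤ η * N) ∧
      (∀ F : Set (ℕ → ℝ), Closed F →
        (∀ s k : ℕ, 1 ≤ s → s ≤ L → (L : ℝ) ^ c ≤ k → k ≤ L → Few (Real.exp (c * k)) s k F) →
        cnt N {n | ∃ L' : ℕ, L ≤ L' ∧ L' ≤ N ∧ ∃ f ∈ F,
          (p r + ε) * L' < (hits r L L' n f : ℝ)} ≤ η * N)) ∧
    (∀ r ε η θ a : ℝ, 0 < r → 0 < ε → 0 < η → 0 < θ → 0 ≤ a → a < 1 → ∃ L₀ : ℕ, ∀ L N : ℕ, L₀ ≤ L →
      (L : ℝ) ^ (1 + θ) ≤ Real.log N →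
      cnt N {n | ∀ f : ℕ → ℝ, ({j : ℕ | j < L ∧ f (j + 1) ≠ f j + 1}.ncard : ℝ) ≤ (L : ℝ) ^ a - 1 →
        (hits r L L n f : ℝ) < (p (r / Real.sqrt (1 - a)) - ε) * L} ≤ η * N) ∧
    (∀ G : ℕ → ℝ, (∀ c : ℝ, 0 < c → ∃ k₀ : ℕ, ∀ k ≥ k₀, G k ≤ Real.exp (c * k)) →
      ∀ η : ℝ, 0 < η → ∃ c : ℝ, 0 < c ∧ ∃ L₀ N₀ : ℕ, ∀ N : ℕ, N₀ ≤ N → ∀ F : Set (ℕ → ℝ), Closed F →
      (∀ s k : ℕ, 1 ≤ s → Few (G k) s k F) →
      cnt N {n | ∃ L' : ℕ, L₀ ≤ L' ∧ L' ≤ N ∧ ∃ f ∈ F,
        ({j : ℕ | j ≤ L' ∧ c < |δ (n + j) - (f (j + 1) - f j)|}.ncard : ℝ) < c * L'} ≤ η * N) := by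
  have hLS := Pool.Agent.P8H45.EN.Ls.t_LS Pool.Agent.P8H45.EN.Cos.t_COS
  have hDEC := Pool.Agent.P8H94.EN.t_DEC Pool.Agent.P8H53.EN.t_TP Pool.Agent.P8H78.EN.t_CHB
  have hCFQ := Pool.Agent.P8H69.EN.t_CFQ Pool.Agent.P8H94.EN.t_TAY Pool.Agent.P8H4.EN.t_SSB
  have hRUN := Pool.Agent.P8H60.EN.t_RUNV hDEC (Pool.Agent.P8H69.EN.t_LOW hLS)
    (Pool.Agent.P8H54.EN.t_CF hCFQ) Pool.Agent.P8H54.EN.t_ERR Pool.Agent.P8H4.EN.t_QF
  have hFIN := Pool.Agent.P8H75.EN.t_FINV (Pool.Agent.P8H60.EN.t_PLV hRUN)
  have hMAX := Pool.Agent.P8H69.EN.t_MAXV hFIN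
  have hRCV := Pool.Agent.P8H60.EN.t_RCV hMAX Pool.Agent.P8H4.EN.t_WAR Pool.Agent.P8H94.EN.t_REC
  have hPOL := Pool.Agent.P8H38.EN.t_POL hFIN Pool.Agent.P8H4.EN.t_WAR
  refine ⟨fun r ε η θ hr hε hη hθ => ?_, fun r ε η θ a hr hε hη hθ ha ha1 => ?_, fun G hG η hη => ?_⟩
  · obtain ⟨c, hc, L₀, h⟩ := Pool.Agent.P8H60.EN.all_S hMAX hRCV hPOL hr hε hη hθ
    refine ⟨c, hc, L₀, fun L N hL hLN => ⟨?_, ?_, ?_⟩⟩
    · exact (h L N hL hLN).1
    · exact (h L N hL hLN).2.1
    · intro F hF hk
      exact (h L N hL hLN).2.2 F hF.1 hF.2 hk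
  · exact Pool.Agent.P8H60.EN.att_A Pool.Agent.P8H21.EN.Atb.t_ATB Pool.Agent.P8H67.LM.t_TW
      Pool.Agent.P8H45.BC.t_FC (Pool.Agent.P8H45.BC.t_LG Pool.Agent.P8H29.BC.t_CH2
        Pool.Agent.P8H29.BC.t_AV) hr hε hη hθ ha ha1
  · obtain ⟨c, hc, L₀, N₀, h⟩ := Pool.Agent.P8H60.BW.gap_bw Pool.Agent.P8H67.LM.t_TW
      Pool.Agent.P8H7.BC.t_GL Pool.Agent.P8H76.BC.t_CH G hG hη
    exact ⟨c, hc, L₀, N₀, fun N hN F hF hk => h N hN F hF.1 hF.2 (fun s k y hs => hk s k hs y)⟩

end Pool.Agent.Results.MP_21f43f_nt.RunComplexity
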